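import Pool.Agent.Helper38.U.C1

/-!
# MP_506470_co, doubly infinite case: module C2 (the complement of a path with three vertices)
-/

namespace SetHom
namespace Un

variable {V : Type} {G : SimpleGraph V}

/-- the base case -/
theorem c2_base {S : Set ℕ} {r : ℕ} (hr : r ∈ S) (hst : StarIn G S) :
    CP3C G r (fun p q s => p → q ∧ ¬ s) := by
  intro α _ H U x a b ht hab hxa hxb
  let T : Set α := {j | j = a ∨ j = b ∨ (j ∈ U ∧ j ≠ x ∧ j ≠ a ∧ j ≠ b ∧ H.Adj x j)}
  have hps : PS G S H T := by
    refine hst α H T a (Or.inl rfl) ?_ ?_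
    · intro j hj hja
      rcases hj with h | h | ⟨hU, h1, h2, h3, h4⟩
      · exact absurd h hja
      · rw [h]; exact hab
      · exact (ht.st j hU h1 h2 h3 h4).1
    · intro i hi hia j hj hja hadj
      rcases hi with h | h | ⟨hU, h1, h2, h3, h4⟩
      · exact hia h
      · rcases hj with h' | h' | ⟨hU', h1', h2', h3', h4'⟩
        · exact hja h'
        · rw [h, h'] at hadj
          exact H.irrefl hadj
        · rw [h] at hadj
          exact (ht.st j hU' h1' h2' h3' h4').2 hadj
      · rcases hj with h' | h' | ⟨hU', h1', h2', h3', h4'⟩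
        · exact hja h'
        · rw [h'] at hadj
          exact (ht.st i hU h1 h2 h3 h4).2 hadj.symm
        · exact ht.ind i hU h1 h2 h3 j hU' h1' h2' h3' hadj
  refine hps.inW ?_ hr
  intro i hiU hiT j hjU hjT hadj
  have hi2 : i ≠ a ∧ i ≠ b ∧ (i ≠ x → ¬ H.Adj x i) := by
    refine ⟨fun h => hiT (Or.inl h), fun h => hiT (Or.inr (Or.inl h)), fun h1 h2 => ?_⟩
    exact hiT (Or.inr (Or.inr ⟨hiU, h1, fun h => hiT (Or.inl h),
      fun h => hiT (Or.inr (Or.inl h)), h2⟩))
  have hj2 : j ≠ a ∧ j ≠ b ∧ (j ≠ x → ¬ H.Adj x j) := by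
    refine ⟨fun h => hjT (Or.inl h), fun h => hjT (Or.inr (Or.inl h)), fun h1 h2 => ?_⟩
    exact hjT (Or.inr (Or.inr ⟨hjU, h1, fun h => hjT (Or.inl h),
      fun h => hjT (Or.inr (Or.inl h)), h2⟩))
  by_cases hix : i = x
  · by_cases hjx : j = x
    · rw [hix, hjx] at hadj
      exact H.irrefl hadj
    · rw [hix] at hadj
      exact hj2.2.2 hjx hadj
  · by_cases hjx : j = x
    · rw [hjx] at hadj
      exact hi2.2.2 hix hadj.symm
    · exact ht.ind i hiU hix hi2.1 hi2.2.1 j hjU hjx hj2.1 hj2.2.1 hadj

/-- the complement of a path on `Fin 3`: the edge `1 2` and the isolated vertex `0` -/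
def c2Graph : SimpleGraph (Fin 3) where
  Adj i j := i ≠ 0 ∧ j ≠ 0 ∧ i ≠ j
  symm := ⟨fun _ _ h => ⟨h.2.1, h.1, h.2.2.symm⟩⟩
  loopless := ⟨fun _ h => h.2.2 rfl⟩

/-- from the configurations to `InCP3` -/
theorem c2_mem {S : Set ℕ} (h : ∀ r ∈ S, CP3C G r (fun _ _ _ => True)) :
    InCP3 (fun _ A T => PS G S A T) := by
  classical
  have key : PS G S c2Graph Set.univ := by
    intro β _ R r hr
    refine h r hr (Fin 3 ⊕ β) (AJ c2Graph R) (UJ β Set.univ) (Sum.inl 0) (Sum.inl 1) (Sum.inl 2)
      ?_ ?_ ?_ ?_
    · refine ⟨by simp, by simp, by simp, by simp, by simp, by simp, ?_, ?_⟩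
      · rintro (i | i) - h0 h1 h2 (j | j) - h0' h1' h2' hadj
        · exfalso
          fin_cases i
          · exact h0 rfl
          · exact h1 rfl
          · exact h2 rfl
        · exfalso
          fin_cases i
          · exact h0 rfl
          · exact h1 rfl
          · exact h2 rfl
        · exfalso
          fin_cases j
          · exact h0' rfl
          · exact h1' rfl
          · exact h2' rfl
        · exact AJ_rr _ _ hadj
      · intro j _ _ _ _
        trivial
    · rw [AJ_ll]
      refine ⟨?_, ?_, ?_⟩ <;> decide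
    · rw [AJ_ll]
      intro h'
      exact h'.1 rfl
    · rw [AJ_ll]
      intro h'
      exact h'.1 rfl
  intro α A x a b hab hxa hxb nxa nxb
  have hne : a ≠ b := hab.ne
  let g : α → Fin 3 := fun z => if z = x then 0 else if z = a then 1 else 2
  have gx : g x = 0 := if_pos rfl
  have ga : g a = 1 := by
    show (if a = x then (0 : Fin 3) else if a = a then 1 else 2) = 1
    rw [if_neg (Ne.symm hxa), if_pos rfl]
  have gb : g b = 2 := by
    show (if b = x then (0 : Fin 3) else if b = a then 1 else 2) = 2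
    rw [if_neg (Ne.symm hxb), if_neg (Ne.symm hne)]
  refine key.comap g (fun _ _ => Set.mem_univ _) ?_ ?_
  · intro y hy z hz e
    rcases hy with rfl | rfl | hy
    · rcases hz with rfl | rfl | hz
      · rfl
      · rw [gx, ga] at e; exact absurd e (by decide)
      · rw [Set.mem_singleton_iff] at hz
        subst hz
        rw [gx, gb] at e; exact absurd e (by decide)
    · rcases hz with rfl | rfl | hz
      · rw [gx, ga] at e; exact absurd e (by decide)
      · rfl
      · rw [Set.mem_singleton_iff] at hz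
        subst hz
        rw [ga, gb] at e; exact absurd e (by decide)
    · rw [Set.mem_singleton_iff] at hy
      subst hy
      rcases hz with rfl | rfl | hz
      · rw [gx, gb] at e; exact absurd e (by decide)
      · rw [ga, gb] at e; exact absurd e (by decide)
      · rw [Set.mem_singleton_iff] at hz
        exact hz.symm
  · have e01 : ¬ c2Graph.Adj 0 1 := fun h' => h'.1 rfl
    have e02 : ¬ c2Graph.Adj 0 2 := fun h' => h'.1 rfl
    have e12 : c2Graph.Adj 1 2 := ⟨by decide, by decide, by decide⟩
    intro y hy z hz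
    rcases hy with rfl | rfl | hy
    · rcases hz with rfl | rfl | hz
      · simp
      · rw [gx, ga]; exact iff_of_false nxa e01
      · rw [Set.mem_singleton_iff] at hz
        subst hz
        rw [gx, gb]; exact iff_of_false nxb e02
    · rcases hz with rfl | rfl | hz
      · rw [gx, ga]; exact iff_of_false (fun h' => nxa h'.symm) (fun h' => e01 h'.symm)
      · simp
      · rw [Set.mem_singleton_iff] at hz
        subst hz
        rw [ga, gb]; exact iff_of_true hab e12
    · rw [Set.mem_singleton_iff] at hy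
      subst hy
      rcases hz with rfl | rfl | hz
      · rw [gx, gb]; exact iff_of_false (fun h' => nxb h'.symm) (fun h' => e02 h'.symm)
      · rw [ga, gb]; exact iff_of_true hab.symm e12.symm
      · rw [Set.mem_singleton_iff] at hz
        subst hz
        simp

/-- module U-C2, the one-step lemma (module U-C1) being taken as a hypothesis. -/
theorem cp3_mem_of {S : Set ℕ} (hst : StarIn G S)
    (cp3_step : ∀ (r : ℕ), r ∈ S →
      ∀ (Sg Sg' : Prop → Prop → Prop → Prop) (f f' : Prop → Prop → Prop → Prop),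
      (∀ x y z, Sg x y z → Sg' (f x y z) y z) → (∀ x y z, Sg x y z → Sg' x y (f' x y z)) →
      Sg' False False True → Sg' False False False → ∀ (pa pb : Prop),
      Sg' True pa pb → CP3C G r Sg' → CP3C G r Sg) :
    InCP3 (fun _ A T => PS G S A T) := by
  apply c2_mem
  intro r hr
  have h1 := c2_base hr hst
  have h2 : CP3C G r (fun p q _ => p → q) :=
    cp3_step r hr (fun p q _ => p → q) (fun p q s => p → q ∧ ¬ s) (fun _ _ _ => False)
      (fun _ _ _ => False) (fun _ _ _ _ h => h.elim) (fun _ _ _ h hp => ⟨h hp, fun h' => h'⟩)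
      (fun h => h.elim) (fun h => h.elim) True False (fun _ => ⟨trivial, fun h' => h'⟩) h1
  have h3 : CP3C G r (fun p _ s => p → s) := h2.swap
  exact cp3_step r hr (fun _ _ _ => True) (fun p _ s => p → s) (fun _ _ _ => False)
      (fun _ _ _ => True) (fun _ _ _ _ h => h.elim) (fun _ _ _ _ _ => trivial)
      (fun h => h.elim) (fun h => h) False True (fun _ => trivial) h3

/-- module U-C2. -/
theorem cp3_mem (hW : WG G) {S : Set ℕ} (hI : Ind3In G S) (hst : StarIn G S) :
    InCP3 (fun _ A T => PS G S A T) :=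
  cp3_mem_of hst (fun _ hr Sg Sg' f f' h1 h2 h3 h4 pa pb h5 h =>
    cp3_step hW hr hI Sg Sg' f f' h1 h2 h3 h4 pa pb h5 h)

end Un
end SetHom
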