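import Pool.Agent.Helper30.U.Defs2

/-!
# MP_506470_co, doubly infinite case: modules D8 and D9 (complements, the final induction)
-/

namespace SetHom
namespace Un

variable {V : Type} {G : SimpleGraph V}

theorem d8_induce_compl {α : Type} (A : SimpleGraph α) (S : Set α) :
    (A.induce S)ᶜ = Aᶜ.induce S := by
  ext x y
  simp [SimpleGraph.compl_adj, Subtype.ext_iff]

/-- module U-D8: complements. -/
theorem below_compl {W : Type} {Y : SimpleGraph W} (h : Below Y Gᶜ) : Below Yᶜ G := by
  intro α _ A x hA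
  obtain ⟨f⟩ := hA
  have f1 : (A.induce {x}ᶜ)ᶜ ↪g Yᶜᶜ := SimpleGraph.Embedding.complEquiv f
  rw [compl_compl, d8_induce_compl] at f1
  obtain ⟨g⟩ := h α Aᶜ x ⟨f1⟩
  exact ⟨SimpleGraph.Embedding.complEquiv.symm g⟩

/-- module U-D9: the final induction. -/
theorem univ_of_next (P : ∀ V : Type, SimpleGraph V → Prop)
    (h : ∀ (V : Type) (G : SimpleGraph V), P V G → ∃ (W : Type) (Y : SimpleGraph W), P W Y ∧
      Below Y G) :
    ∀ (n : ℕ) (V : Type) (G : SimpleGraph V), P V G → ∀ (A : SimpleGraph (Fin n)),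
      Nonempty (A ↪g G) := by
  intro n
  induction n with
  | zero =>
    intro V G _ A
    exact ⟨⟨⟨fun x => x.elim0, fun x => x.elim0⟩, fun {x} => x.elim0⟩⟩
  | succ n ih =>
    intro V G hG A
    obtain ⟨W, Y, hY, hb⟩ := h V G hG
    apply hb (Fin (n + 1)) A (Fin.last n)
    obtain ⟨g⟩ := ih W Y hY (A.comap Fin.castSucc)
    let e : ↥({Fin.last n}ᶜ : Set (Fin (n + 1))) → Fin n :=
      fun z => z.1.castPred (fun hz => z.2 hz)
    have he : ∀ z, (e z).castSucc = z.1 := fun z => Fin.castSucc_castPred _ _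
    have hinj : Function.Injective e := by
      intro z z' hz
      apply Subtype.ext
      rw [← he z, ← he z', hz]
    refine ⟨⟨⟨fun z => g (e z), fun z z' hz => hinj (g.injective hz)⟩, ?_⟩⟩
    intro z z'
    change Y.Adj (g (e z)) (g (e z')) ↔ A.Adj z.1 z'.1
    rw [g.map_adj_iff, SimpleGraph.comap_adj, he, he]

end Un
end SetHom
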