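import Pool.Agent.Helper30.U.Defs2
import Pool.Agent.Helper30.SH.BackForth

/-!
# MP_506470_co, doubly infinite case: module D11 (disjoint unions of cliques)
-/

namespace SetHom
namespace Un

variable {V : Type} {G : SimpleGraph V}

/-- the relation of being in the same clique -/
def d11Rel (G : SimpleGraph V) (x y : V) : Prop := x = y ∨ G.Adj x y

theorem d11_trans (h : P3F G Set.univ) {x y z : V} (h1 : d11Rel G x y) (h2 : d11Rel G y z) :
    d11Rel G x z := by
  rcases h1 with h1 | h1
  · rw [h1]; exact h2
  · rcases h2 with h2 | h2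
    · rw [← h2]; exact Or.inr h1
    · by_cases hxz : x = z
      · exact Or.inl hxz
      · exact Or.inr (h x trivial y trivial z trivial h1 h2 hxz)

theorem d11_symm {x y : V} (h1 : d11Rel G x y) : d11Rel G y x := by
  rcases h1 with h1 | h1
  · exact Or.inl h1.symm
  · exact Or.inr h1.symm

/-- single vertices are conjugate -/
theorem d11_vtrans (hs : SetHomogeneous G) (u v : V) : ∃ φ : G ≃g G, φ u = v := by
  classical
  obtain ⟨φ, hφ⟩ := hs {u} {v} (by
    refine ⟨⟨⟨fun _ => ⟨v, by simp⟩, fun _ => ⟨u, by simp⟩, ?_, ?_⟩, ?_⟩⟩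
    · rintro ⟨x, hx⟩
      simp only [Finset.coe_singleton, Set.mem_singleton_iff] at hx
      simp [hx]
    · rintro ⟨x, hx⟩
      simp only [Finset.coe_singleton, Set.mem_singleton_iff] at hx
      simp [hx]
    · rintro ⟨x, hx⟩ ⟨y, hy⟩
      simp only [Finset.coe_singleton, Set.mem_singleton_iff] at hx hy
      simp [hx, hy])
  refine ⟨φ, ?_⟩
  have h1 : φ u ∈ φ '' ((({u} : Finset V)) : Set V) := ⟨u, by simp, rfl⟩
  rw [hφ] at h1
  simpa using h1

theorem d11_ope (hs : SetHomogeneous G) (h : P3F G Set.univ) : OPE G := by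
  classical
  intro U f hinj hadj a ha
  have hrel : ∀ x ∈ U, ∀ y ∈ U, (d11Rel G (f x) (f y) ↔ d11Rel G x y) := by
    intro x hx y hy
    unfold d11Rel
    rw [hadj x hx y hy]
    constructor
    · rintro (h1 | h1)
      · exact Or.inl (hinj hx hy h1)
      · exact Or.inr h1
    · rintro (h1 | h1)
      · exact Or.inl (by rw [h1])
      · exact Or.inr h1
  by_cases hc : ∃ u ∈ U, G.Adj a u
  · obtain ⟨u, hu, hau⟩ := hc
    -- find a point of the component of `f u` outside the image
    have key : ∃ b, d11Rel G (f u) b ∧ ∀ x ∈ U, f x ≠ b := by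
      by_contra hno
      push Not at hno
      obtain ⟨φ, hφ⟩ := d11_vtrans hs u (f u)
      let C := {v : V // d11Rel G u v}
      have hφr : ∀ v : C, d11Rel G (f u) (φ v.1) := by
        intro v
        rw [← hφ]
        rcases v.2 with h1 | h1
        · exact Or.inl (congrArg φ h1)
        · exact Or.inr (φ.map_adj_iff.2 h1)
      choose! x hx using hno
      have hxU : ∀ v : C, x (φ v.1) ∈ U := fun v => (hx _ (hφr v)).1
      have hxf : ∀ v : C, f (x (φ v.1)) = φ v.1 := fun v => (hx _ (hφr v)).2
      let ψ : C → C := fun v => ⟨x (φ v.1), (hrel u hu _ (hxU v)).1 (by rw [hxf v]; exact hφr v)⟩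
      have hψU : ∀ v, (ψ v).1 ∈ U := hxU
      have hψinj : Function.Injective ψ := by
        intro v w hvw
        have h1 : x (φ v.1) = x (φ w.1) := congrArg Subtype.val hvw
        have h2 : φ v.1 = φ w.1 := by rw [← hxf v, ← hxf w, h1]
        exact Subtype.ext (φ.injective h2)
      have hfin : Finite C := by
        apply Finite.of_injective (fun v : C => (⟨(ψ v).1, hψU v⟩ : {v // v ∈ U}))
        intro v w hvw
        have h1 : (ψ v).1 = (ψ w).1 := congrArg (fun z : {v // v ∈ U} => z.1) hvw
        exact hψinj (Subtype.ext h1)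
      have hsurj : Function.Surjective ψ := Finite.injective_iff_surjective.1 hψinj
      obtain ⟨v, hv⟩ := hsurj ⟨a, Or.inr hau.symm⟩
      have := hψU v
      rw [hv] at this
      exact ha this
    obtain ⟨b, hb, hbU⟩ := key
    refine ⟨b, hbU, ?_⟩
    intro y hy
    have hne : b ≠ f y := fun e => hbU y hy e.symm
    have hay : a ≠ y := fun e => ha (e ▸ hy)
    have hura : d11Rel G u a := Or.inr hau.symm
    constructor
    · intro h1
      have h2 : d11Rel G (f u) (f y) := d11_trans h hb (Or.inr h1)
      have h3 := (hrel u hu y hy).1 h2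
      rcases d11_trans h (d11_symm hura) h3 with h4 | h4
      · exact absurd h4 hay
      · exact h4
    · intro h1
      have h2 : d11Rel G u y := d11_trans h hura (Or.inr h1)
      have h3 := (hrel u hu y hy).2 h2
      rcases d11_trans h (d11_symm hb) h3 with h4 | h4
      · exact absurd h4 hne
      · exact h4
  · push Not at hc
    -- a component not met by the image
    have key : ∃ b, ∀ x ∈ U, ¬ d11Rel G (f x) b := by
      by_contra hno
      push Not at hno
      let s : Setoid V := ⟨d11Rel G, fun _ => Or.inl rfl, fun h1 => d11_symm h1,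
        fun h1 h2 => d11_trans h h1 h2⟩
      have hQ : ∀ c : Quotient s, ∃ x ∈ U, (Quotient.mk s (f x)) = c := by
        intro c
        obtain ⟨b, rfl⟩ := Quotient.exists_rep c
        obtain ⟨x, hx, hxb⟩ := hno b
        exact ⟨x, hx, Quotient.sound hxb⟩
      choose x hxU hx using hQ
      let ψ : Quotient s → Quotient s := fun c => Quotient.mk s (x c)
      have hψinj : Function.Injective ψ := by
        intro c c' hcc
        have h1 : d11Rel G (x c) (x c') := Quotient.exact hcc
        have h2 := (hrel _ (hxU c) _ (hxU c')).2 h1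
        rw [← hx c, ← hx c']
        exact Quotient.sound h2
      have hfin : Finite (Quotient s) := by
        apply Finite.of_injective (fun c : Quotient s => (⟨x c, hxU c⟩ : {v // v ∈ U}))
        intro c c' hcc
        have h1 : x c = x c' := congrArg Subtype.val hcc
        rw [← hx c, ← hx c', h1]
      have hsurj : Function.Surjective ψ := Finite.injective_iff_surjective.1 hψinj
      obtain ⟨c, hcq⟩ := hsurj (Quotient.mk s a)
      have h1 : d11Rel G (x c) a := Quotient.exact hcq
      rcases h1 with h1 | h1
      · exact ha (h1 ▸ hxU c)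
      · exact hc _ (hxU c) h1.symm
    obtain ⟨b, hb⟩ := key
    refine ⟨b, fun y hy e => hb y hy (Or.inl e), ?_⟩
    intro y hy
    exact iff_of_false (fun h1 => hb y hy (Or.inr h1.symm)) (hc y hy)

/-- module U-D11: disjoint unions of cliques (the cliques may be infinite). -/
theorem homogeneous_of_p3f [Countable V] (hs : SetHomogeneous G) (h : P3F G Set.univ) :
    Homogeneous G := homogeneous_of_ope (d11_ope hs h)

end Un
end SetHom
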